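import Mathlib
import Pool.Agent.RTV.Fin

/-!
Lower bound for the asymptotic repetition threshold of codings of interval exchanges.
-/

open Pool.Agent.Helper44.IET

namespace Pool.Agent.Results.MP_b68e99_co.LowerRootFive

/-- **Theorem.** For every `d ≥ 2` the asymptotic repetition threshold of the class of codings of
`d`-interval exchanges is at least `1 + √5 / (d - 1)`. -/
theorem result (d : ℕ) (hd : 2 ≤ d) :
    ((1 + Real.sqrt 5 / ((d : ℝ) - 1) : ℝ) : EReal) ≤ RTstar d :=
  le_iInf₂ fun u hu => Pool.Agent.RTV.lower5 d hd u hu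

end Pool.Agent.Results.MP_b68e99_co.LowerRootFive
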