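import Pool.Agent.Helper56.Rot.Upper

/-!
Exchanges whose permutation is a rotation of the intervals: the repetition thresholds are
`1 + (φ ^ 2 + o(1)) / (d - 1)`.
-/

set_option autoImplicit false

open Pool.Agent.Helper44.IET Pool.Helper56.Rot

namespace Pool.Agent.Results.MP_b68e99_co.RotationType

/-- **Theorem.** Let `d ≥ 2` and let `φ` be the golden ratio. Every coding `u` of an irreducible
exchange of `d` intervals satisfying Keane's condition whose permutation is a rotation of the
intervals has `E(u) ≥ E*(u) ≥ 1 + φ ^ 2 / (d - 1)`, and the thresholds of the class of these codings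
are at most `1 + φ ^ 2 / (d - 1) + 100 / (d - 1) ^ (3 / 2)`. -/
theorem result (d : ℕ) (hd : 2 ≤ d) :
    ((1 + ((1 + Real.sqrt 5) / 2) ^ 2 / ((d : ℝ) - 1) : ℝ) : EReal) ≤ RTstarRot d ∧
      RTstarRot d ≤ RTrot d ∧
      RTrot d ≤ ((1 + (((1 + Real.sqrt 5) / 2) ^ 2 + 100 / Real.sqrt ((d : ℝ) - 1)) /
        ((d : ℝ) - 1) : ℝ) : EReal) := by
  have hφ : (1 + Real.sqrt 5) / 2 = ph := by unfold ph; ring
  rw [hφ]
  refine ⟨?_, ?_, ?_⟩
  · refine le_iInf₂ fun u hu => ?_
    obtain ⟨E, hrot, hI, hK, hcod⟩ := hu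
    exact (lower_rotation hd E hrot hI hK u hcod).2
  · refine iInf₂_mono fun u hu => ?_
    obtain ⟨E, hrot, hI, hK, hcod⟩ := hu
    unfold asympCritExp
    split_ifs with h
    · rw [h]
    · refine iInf_le_of_le 0 ?_
      unfold critExpFrom critExp
      refine iSup_mono fun i => iSup_mono fun p => iSup_mono fun l => iSup_mono fun hp => ?_
      exact iSup_le fun _ => le_rfl
  · obtain ⟨D, rfl⟩ : ∃ D, d = D + 1 := ⟨d - 1, by omega⟩
    have h := Pool.Helper56.Rot.upper_all D (by omega)
    have h1 : ((D + 1 : ℕ) : ℝ) - 1 = D := by push_cast; ring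
    rw [h1]
    exact h

end Pool.Agent.Results.MP_b68e99_co.RotationType
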