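import Mathlib
import Pool.Agent.Helper44.IETUpper

/-!
Upper bound for the repetition threshold of codings of interval exchanges.
-/

open Pool.Agent.Helper44.IET

namespace Pool.Agent.Results.MP_b68e99_co.UpperBound

/-- **Theorem.** For every `d ≥ 2` the repetition threshold of the class of codings of
`d`-interval exchanges is at most `1 + φ ^ 2 / (d - 1) + 100 / (d - 1) ^ (3 / 2)`, where `φ` is the
golden ratio. -/
theorem result (d : ℕ) (hd : 2 ≤ d) :
    RT d ≤ ((1 + (((1 + Real.sqrt 5) / 2) ^ 2 + 100 / Real.sqrt ((d : ℝ) - 1)) / ((d : ℝ) - 1) : ℝ) :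
      EReal) := by
  obtain ⟨D, rfl⟩ : ∃ D, d = D + 1 := ⟨d - 1, by omega⟩
  have h := upper_all D (by omega)
  have h1 : ((D + 1 : ℕ) : ℝ) - 1 = D := by push_cast; ring
  have h2 : (1 + Real.sqrt 5) / 2 = ph := by unfold ph; ring
  rw [h1, h2]
  exact h

end Pool.Agent.Results.MP_b68e99_co.UpperBound
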